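import Pool.Agent.R100.DC.Stm

/-! Project DC (MP_9c5a5c_co): the core, assembly. -/

set_option autoImplicit false

namespace R100DC

open Finset

namespace C

variable {V : Type} [Fintype V] [DecidableEq V]

omit [Fintype V] [DecidableEq V] in
lemma A_zero (G : SimpleGraph V) (a b : V) (h : ¬ G.Adj a b) : A G a b = 0 := by
  unfold A
  exact if_neg h

omit [Fintype V] [DecidableEq V] in
lemma A_nonneg (G : SimpleGraph V) (a b : V) : 0 ≤ A G a b := by
  unfold A
  split_ifs <;> norm_num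

lemma isolated (G : SimpleGraph V) (u v : V) (huv : u ≠ v) (h : ¬ ∃ x, G.Adj u x) : Splits G := by
  push Not at h
  have h1 : ∀ x, A G u x = 0 := fun x => A_zero G u x (h x)
  have h2 : ∀ x, A G x u = 0 := fun x => A_zero G x u (fun h' => h x h'.symm)
  refine ⟨{u}, ⟨u, by simp⟩, ⟨v, by simp [huv.symm]⟩, ?_⟩
  have e1 : E2 G {u} = 0 := by
    unfold E2
    rw [Finset.sum_singleton, Finset.sum_singleton, h1]
  have e2 : E2 G ({u}ᶜ) = E2 G univ := by
    unfold E2
    rw [← Finset.sum_subset (subset_univ ({u}ᶜ : Finset V)) (f := fun a => ∑ b, A G a b)]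
    · refine Finset.sum_congr rfl fun a _ => ?_
      refine Finset.sum_subset (subset_univ _) fun b _ hb => ?_
      have : b = u := by simpa using hb
      rw [this, h2]
    · intro a _ ha
      have : a = u := by simpa using ha
      rw [this]
      exact Finset.sum_eq_zero fun b _ => h1 b
  have hn : 1 < Fintype.card V := Fintype.one_lt_card_iff.2 ⟨u, v, huv⟩
  have hE : 0 ≤ E2 G univ := Finset.sum_nonneg fun a _ => Finset.sum_nonneg fun b _ => A_nonneg G a b
  have hc : (({u}ᶜ : Finset V).card : ℚ) = (Fintype.card V : ℚ) - 1 := by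
    rw [card_compl, card_singleton, Nat.cast_sub hn.le, Nat.cast_one]
  have hnQ : (1 : ℚ) < Fintype.card V := by exact_mod_cast hn
  rw [e1, e2, zero_div, zero_add, hc]
  exact div_le_div_of_nonneg_left hE (by linarith) (by linarith)

lemma zero_case (hK : StmK) (hV : StmV) (hE : StmE) (G : SimpleGraph V) (u v : V) (huv : u ≠ v)
    (hadj : ¬ G.Adj u v) (T : Finset V) (hT : CoM G T) (huT : u ∉ T) (hvT : v ∉ T)
    (hcov : ∀ y, y = u ∨ y = v ∨ y ∈ T) : Splits G := by
  set z : V → ℚ := vec [(u, 1), (v, -1)] with hz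
  have hzv : ∀ w, z w = (if w = u then (1 : ℚ) else 0) + (if w = v then (-1 : ℚ) else 0) := by
    intro w
    simp only [hz, vec, List.map_cons, List.map_nil, List.sum_cons, List.sum_nil, add_zero]
  have hQ : Q G z = 0 := by
    rw [hz, hV]
    simp only [List.map_cons, List.map_nil, List.sum_cons, List.sum_nil, add_zero]
    unfold M
    rw [A_zero G u u (G.loopless.irrefl u), A_zero G v v (G.loopless.irrefl v), A_zero G u v hadj,
      A_zero G v u (fun h => hadj h.symm)]
    ring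
  obtain ⟨z', h1, h2, h3⟩ := (hE V G).2.2 T hT z (fun w hw => by
    have hwu : w ≠ u := fun h => huT (by rw [← h]; exact hw)
    have hwv : w ≠ v := fun h => hvT (by rw [← h]; exact hw)
    rw [hzv, if_neg hwu, if_neg hwv, add_zero])
  have hu' : z' u = 1 := by
    rw [h1 u huT, hzv, if_pos rfl, if_neg huv, add_zero]
  have hv' : z' v = -1 := by
    rw [h1 v hvT, hzv, if_neg huv.symm, if_pos rfl, zero_add]
  refine hK V G z' (fun w => ?_) ⟨u, hu'⟩ ⟨v, hv'⟩ (h3.trans hQ.le)
  rcases hcov w with rfl | rfl | hw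
  · exact Or.inl hu'
  · exact Or.inr hv'
  · exact h2 w hw

end C

theorem sC (hK : StmK) (hV : StmV) (hE : StmE) (hN : StmN) (h1 : StmC1) (h2 : StmC2)
    (h3 : StmC3) : StmC := by
  intro V _ _ G hG u v huv hadj hcom
  by_cases hu : ∃ x, G.Adj u x
  swap
  · exact C.isolated G u v huv hu
  by_cases hv : ∃ x, G.Adj v x
  swap
  · exact C.isolated G v u huv.symm hv
  have hcom' : ∀ y, ¬ (G.Adj u y ∧ G.Adj v y) := fun y h => hcom y ⟨h.1, h.2.symm⟩
  obtain ⟨T, hTV, hT, hcl⟩ := (hN V G).2 (univ \ {u, v})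
  have huT : u ∉ T := fun h => by
    have := hTV h
    simp at this
  have hvT : v ∉ T := fun h => by
    have := hTV h
    simp at this
  set U := (univ \ {u, v}) \ T with hU
  have hmemU : ∀ y, y ∈ U ↔ (y ≠ u ∧ y ≠ v) ∧ y ∉ T := by
    intro y
    simp [hU]
  have hcard : U.card ≤ 3 := by
    by_contra hlt
    obtain ⟨t, htU, ht⟩ := Finset.exists_subset_card_eq (show 4 ≤ U.card by omega)
    apply hG t
    exact ⟨fun a ha b hb hab => hcl a (htU ha) b (htU hb) hab, ht⟩
  have hcov : ∀ y, y = u ∨ y = v ∨ y ∈ U ∨ y ∈ T := by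
    intro y
    by_cases hyu : y = u
    · exact Or.inl hyu
    by_cases hyv : y = v
    · exact Or.inr (Or.inl hyv)
    by_cases hyT : y ∈ T
    · exact Or.inr (Or.inr (Or.inr hyT))
    · exact Or.inr (Or.inr (Or.inl ((hmemU y).2 ⟨⟨hyu, hyv⟩, hyT⟩)))
  have hcases : U.card = 0 ∨ U.card = 1 ∨ U.card = 2 ∨ U.card = 3 := by omega
  rcases hcases with hc | hc | hc | hc
  · have hU0 : U = ∅ := Finset.card_eq_zero.1 hc
    refine C.zero_case hK hV hE G u v huv hadj T hT huT hvT fun y => ?_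
    rcases hcov y with h | h | h | h
    · exact Or.inl h
    · exact Or.inr (Or.inl h)
    · rw [hU0] at h
      exact absurd h (Finset.notMem_empty y)
    · exact Or.inr (Or.inr h)
  · obtain ⟨w, hw⟩ := Finset.card_eq_one.1 hc
    have hwU := (hmemU w).1 (by rw [hw]; simp)
    refine h1 V G u v w T huv hadj hcom' hu hv hT huT hvT hwU.2 hwU.1.1 hwU.1.2 fun y => ?_
    rcases hcov y with h | h | h | h
    · exact Or.inl h
    · exact Or.inr (Or.inl h)
    · rw [hw, Finset.mem_singleton] at h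
      exact Or.inr (Or.inr (Or.inl h))
    · exact Or.inr (Or.inr (Or.inr h))
  · obtain ⟨w₁, w₂, h12, hw⟩ := Finset.card_eq_two.1 hc
    have hw1 : w₁ ∈ U := by rw [hw]; simp
    have hw2 : w₂ ∈ U := by rw [hw]; simp
    have hw1U := (hmemU w₁).1 hw1
    have hw2U := (hmemU w₂).1 hw2
    refine h2 V G u v w₁ w₂ T huv hadj hcom' hu hv hT huT hvT hw1U.2 hw2U.2 hw1U.1.1 hw1U.1.2
      hw2U.1.1 hw2U.1.2 (hcl w₁ hw1 w₂ hw2 h12) fun y => ?_
    rcases hcov y with h | h | h | h
    · exact Or.inl h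
    · exact Or.inr (Or.inl h)
    · rw [hw, Finset.mem_insert, Finset.mem_singleton] at h
      rcases h with h | h
      · exact Or.inr (Or.inr (Or.inl h))
      · exact Or.inr (Or.inr (Or.inr (Or.inl h)))
    · exact Or.inr (Or.inr (Or.inr (Or.inr h)))
  · obtain ⟨w₁, w₂, w₃, h12, h13, h23, hw⟩ := Finset.card_eq_three.1 hc
    have hw1 : w₁ ∈ U := by rw [hw]; simp
    have hw2 : w₂ ∈ U := by rw [hw]; simp
    have hw3 : w₃ ∈ U := by rw [hw]; simp
    have hw1U := (hmemU w₁).1 hw1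
    have hw2U := (hmemU w₂).1 hw2
    have hw3U := (hmemU w₃).1 hw3
    refine h3 V G u v w₁ w₂ w₃ T hG huv hadj hcom' hu hv hT huT hvT hw1U.2 hw2U.2 hw3U.2 hw1U.1.1
      hw1U.1.2 hw2U.1.1 hw2U.1.2 hw3U.1.1 hw3U.1.2 (hcl w₁ hw1 w₂ hw2 h12)
      (hcl w₁ hw1 w₃ hw3 h13) (hcl w₂ hw2 w₃ hw3 h23) fun y => ?_
    rcases hcov y with h | h | h | h
    · exact Or.inl h
    · exact Or.inr (Or.inl h)
    · rw [hw, Finset.mem_insert, Finset.mem_insert, Finset.mem_singleton] at h
      rcases h with h | h | h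
      · exact Or.inr (Or.inr (Or.inl h))
      · exact Or.inr (Or.inr (Or.inr (Or.inl h)))
      · exact Or.inr (Or.inr (Or.inr (Or.inr (Or.inl h))))
    · exact Or.inr (Or.inr (Or.inr (Or.inr (Or.inr h))))

end R100DC

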