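import Pool.Agent.R100.DC.Stm

/-! Project DC (MP_9c5a5c_co): piece C1, one unmatched vertex (helper995). -/

set_option autoImplicit false

namespace R100DC

open Finset

namespace C1

variable {V : Type} [Fintype V] [DecidableEq V] {G : SimpleGraph V}

lemma A_adj {a b : V} (h : G.Adj a b) : A G a b = 1 := by
  classical
  unfold A
  exact if_pos h

lemma A_not {a b : V} (h : ¬ G.Adj a b) : A G a b = 0 := by
  classical
  unfold A
  exact if_neg h

lemma A_self (a : V) : A G a a = 0 := A_not (G.loopless.irrefl a)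

lemma A_symm (a b : V) : A G a b = A G b a := by
  by_cases h : G.Adj a b
  · rw [A_adj h, A_adj h.symm]
  · rw [A_not h, A_not fun h' => h h'.symm]

lemma A_nonneg (a b : V) : 0 ≤ A G a b := by
  by_cases h : G.Adj a b
  · rw [A_adj h]; norm_num
  · rw [A_not h]

lemma A_le_one (a b : V) : A G a b ≤ 1 := by
  by_cases h : G.Adj a b
  · rw [A_adj h]
  · rw [A_not h]; norm_num

lemma c_nonneg : 0 ≤ E2 G univ / (Fintype.card V : ℚ) := by
  refine div_nonneg ?_ (Nat.cast_nonneg _)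
  exact Finset.sum_nonneg fun a _ => Finset.sum_nonneg fun b _ => A_nonneg a b

lemma d_le (w : V) : d G w ≤ Fintype.card V := by
  unfold d
  calc ∑ b, A G w b ≤ ∑ _b : V, (1 : ℚ) := Finset.sum_le_sum fun b _ => A_le_one w b
    _ = Fintype.card V := by simp

lemma M_self_le (w : V) : M G w w ≤ 2 * (Fintype.card V : ℚ) := by
  unfold M
  rw [A_self]
  have h1 := d_le (G := G) w
  have h2 := c_nonneg (G := G)
  linarith

lemma Q4 (hV : StmV) (a b c e : V) :
    Q G (vec [(a, 1), (b, 1), (c, -1), (e, -1)]) =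
      -2 * (Fintype.card V : ℚ) *
        (A G a b + A G c e - A G a c - A G a e - A G b c - A G b e) := by
  rw [hV]
  simp only [List.map_cons, List.map_nil, List.sum_cons, List.sum_nil, M, A_self]
  rw [A_symm b a, A_symm e c, A_symm c a, A_symm e a, A_symm c b, A_symm e b]
  ring

lemma Q5 (hV : StmV) (u v y w x : V) :
    Q G (vec [(u, 1), (v, 1), (y, 1), (w, -1), (x, -1)]) =
      2 * (d G u + d G v + d G y - d G w - d G x) - E2 G univ / (Fintype.card V : ℚ)
      - 2 * (Fintype.card V : ℚ) *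
        (A G u v + A G u y + A G v y - A G u w - A G u x - A G v w - A G v x - A G y w - A G y x
          + A G w x) := by
  rw [hV]
  simp only [List.map_cons, List.map_nil, List.sum_cons, List.sum_nil, M, A_self]
  rw [A_symm v u, A_symm y u, A_symm y v, A_symm w u, A_symm x u, A_symm w v, A_symm x v,
    A_symm w y, A_symm x y, A_symm x w]
  ring

/-- the final step: extend over the matched set -/
lemma finish (hK : StmK) (hE : StmE) {T : Finset V} (hT : CoM G T) (z : V → ℚ)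
    (h0 : ∀ t ∈ T, z t = 0) (h1 : ∀ t, t ∉ T → z t = 1 ∨ z t = -1)
    {p q : V} (hp : z p = 1) (hq : z q = -1) (hQ : Q G z ≤ 0) : Splits G := by
  obtain ⟨z', e1, e2, e3⟩ := (hE V G).2.2 T hT z h0
  have hpT : p ∉ T := fun h => by rw [h0 p h] at hp; norm_num at hp
  have hqT : q ∉ T := fun h => by rw [h0 q h] at hq; norm_num at hq
  refine hK V G z' (fun t => ?_) ⟨p, by rw [e1 p hpT, hp]⟩ ⟨q, by rw [e1 q hqT, hq]⟩ (e3.trans hQ)
  by_cases ht : t ∈ T
  · exact e2 t ht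
  · rw [e1 t ht]; exact h1 t ht

lemma fin4 (hK : StmK) (hE : StmE) {T : Finset V} (hT : CoM G T) {a b c e y : V}
    (hab : a ≠ b) (hac : a ≠ c) (hae : a ≠ e) (hbc : b ≠ c) (hbe : b ≠ e) (hce : c ≠ e)
    (hya : y ≠ a) (hyb : y ≠ b) (hyc : y ≠ c) (hye : y ≠ e)
    (ha : a ∉ T) (hb : b ∉ T) (hc : c ∉ T) (he : e ∉ T) (hy : y ∉ T)
    (hall : ∀ t, t = a ∨ t = b ∨ t = c ∨ t = e ∨ t = y ∨ t ∈ T)
    (hQ : Q G (vec [(a, 1), (b, 1), (c, -1), (e, -1)]) ≤ -2 * (Fintype.card V : ℚ)) :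
    Splits G := by
  set z := vec [(a, (1 : ℚ)), (b, 1), (c, -1), (e, -1)] with hz
  have za : z a = 1 := by simp [hz, vec, hab, hac, hae]
  have zb : z b = 1 := by simp [hz, vec, hab.symm, hbc, hbe]
  have zc : z c = -1 := by simp [hz, vec, hac.symm, hbc.symm, hce]
  have ze : z e = -1 := by simp [hz, vec, hae.symm, hbe.symm, hce.symm]
  have zy : z y = 0 := by simp [hz, vec, hya, hyb, hyc, hye]
  have zT : ∀ t ∈ T, z t = 0 := by
    intro t ht
    have h1 : t ≠ a := fun h => ha (h ▸ ht)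
    have h2 : t ≠ b := fun h => hb (h ▸ ht)
    have h3 : t ≠ c := fun h => hc (h ▸ ht)
    have h4 : t ≠ e := fun h => he (h ▸ ht)
    simp [hz, vec, h1, h2, h3, h4]
  obtain ⟨z', e1, e2, e3⟩ := (hE V G).1 z y zy
  have hM := M_self_le (G := G) y
  have yT : ∀ t ∈ T, t ≠ y := fun t ht h => hy (h ▸ ht)
  refine finish hK hE hT z' (fun t ht => by rw [e1 t (yT t ht), zT t ht]) (fun t ht => ?_)
    (p := a) (q := c) (by rw [e1 a hya.symm, za]) (by rw [e1 c hyc.symm, zc]) (by linarith)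
  rcases hall t with h | h | h | h | h | h
  · left; rw [h, e1 a hya.symm, za]
  · left; rw [h, e1 b hyb.symm, zb]
  · right; rw [h, e1 c hyc.symm, zc]
  · right; rw [h, e1 e hye.symm, ze]
  · rw [h]; exact e2
  · exact absurd h ht

lemma fin5 (hK : StmK) (hE : StmE) {T : Finset V} (hT : CoM G T) {a b c e y : V}
    (hab : a ≠ b) (hac : a ≠ c) (hae : a ≠ e) (hbc : b ≠ c) (hbe : b ≠ e) (hce : c ≠ e)
    (hya : y ≠ a) (hyb : y ≠ b) (hyc : y ≠ c) (hye : y ≠ e)
    (ha : a ∉ T) (hb : b ∉ T) (hc : c ∉ T) (he : e ∉ T) (hy : y ∉ T)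
    (hall : ∀ t, t = a ∨ t = b ∨ t = c ∨ t = e ∨ t = y ∨ t ∈ T)
    (hQ : Q G (vec [(a, 1), (b, 1), (c, 1), (e, -1), (y, -1)]) ≤ 0) :
    Splits G := by
  set z := vec [(a, (1 : ℚ)), (b, 1), (c, 1), (e, -1), (y, -1)] with hz
  have za : z a = 1 := by simp [hz, vec, hab, hac, hae, hya.symm]
  have zb : z b = 1 := by simp [hz, vec, hab.symm, hbc, hbe, hyb.symm]
  have zc : z c = 1 := by simp [hz, vec, hac.symm, hbc.symm, hce, hyc.symm]
  have ze : z e = -1 := by simp [hz, vec, hae.symm, hbe.symm, hce.symm, hye.symm]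
  have zy : z y = -1 := by simp [hz, vec, hya, hyb, hyc, hye]
  have zT : ∀ t ∈ T, z t = 0 := by
    intro t ht
    have h1 : t ≠ a := fun h => ha (h ▸ ht)
    have h2 : t ≠ b := fun h => hb (h ▸ ht)
    have h3 : t ≠ c := fun h => hc (h ▸ ht)
    have h4 : t ≠ e := fun h => he (h ▸ ht)
    have h5 : t ≠ y := fun h => hy (h ▸ ht)
    simp [hz, vec, h1, h2, h3, h4, h5]
  refine finish hK hE hT z zT (fun t ht => ?_) za ze hQ
  rcases hall t with h | h | h | h | h | h
  · left; rw [h, za]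
  · left; rw [h, zb]
  · left; rw [h, zc]
  · right; rw [h, ze]
  · right; rw [h, zy]
  · exact absurd h ht

/-- the hypotheses of `StmC1` -/
structure Cx (G : SimpleGraph V) (u v w : V) (T : Finset V) : Prop where
  huv : u ≠ v
  hn : ¬ G.Adj u v
  hc : ∀ y, ¬ (G.Adj u y ∧ G.Adj v y)
  hT : CoM G T
  hu : u ∉ T
  hv : v ∉ T
  hw : w ∉ T
  hwu : w ≠ u
  hwv : w ≠ v
  hall : ∀ y, y = u ∨ y = v ∨ y = w ∨ y ∈ T

lemma Cx.swap {u v w : V} {T : Finset V} (h : Cx G u v w T) : Cx G v u w T :=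
  ⟨h.huv.symm, fun h' => h.hn h'.symm, fun y hy => h.hc y ⟨hy.2, hy.1⟩, h.hT, h.hv, h.hu, h.hw,
    h.hwv, h.hwu, fun y => by rcases h.hall y with h1 | h1 | h1 | h1 <;> simp [h1]⟩

lemma mem_two {T : Finset V} {x x' t : V} (ht : t ∈ T) :
    t = x ∨ t = x' ∨ t ∈ (T.erase x).erase x' := by
  by_cases h1 : t = x
  · exact Or.inl h1
  by_cases h2 : t = x'
  · exact Or.inr (Or.inl h2)
  exact Or.inr (Or.inr (by simp [h1, h2, ht]))

lemma key1 (hK : StmK) (hE : StmE) {u v w : V} {T : Finset V} (h : Cx G u v w T) {x x' : V}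
    (hx : x ∈ T) (hx' : x' ∈ T) (hne : x' ≠ x) (hT' : CoM G ((T.erase x).erase x'))
    (hQ : Q G (vec [(u, 1), (x, 1), (v, -1), (w, -1)]) ≤ -2 * (Fintype.card V : ℚ)) :
    Splits G := by
  have nx : ∀ {t : V}, t ∉ T → t ≠ x := fun ht h' => ht (h' ▸ hx)
  have nx' : ∀ {t : V}, t ∉ T → t ≠ x' := fun ht h' => ht (h' ▸ hx')
  have nT : ∀ {t : V}, t ∉ T → t ∉ (T.erase x).erase x' := fun ht h' => by
    simp at h'; exact ht h'.2.2
  refine fin4 hK hE hT' (a := u) (b := x) (c := v) (e := w) (y := x') (nx h.hu) h.huv h.hwu.symm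
    (nx h.hv).symm (nx h.hw).symm h.hwv.symm (nx' h.hu).symm hne (nx' h.hv).symm (nx' h.hw).symm
    (nT h.hu) (by simp) (nT h.hv) (nT h.hw) (by simp) (fun t => ?_) hQ
  rcases h.hall t with h1 | h1 | h1 | h1
  · simp [h1]
  · simp [h1]
  · simp [h1]
  · rcases mem_two (x := x) (x' := x') h1 with h2 | h2 | h2
    · exact Or.inr (Or.inl h2)
    · exact Or.inr (Or.inr (Or.inr (Or.inr (Or.inl h2))))
    · exact Or.inr (Or.inr (Or.inr (Or.inr (Or.inr h2))))

lemma key2 (hK : StmK) (hE : StmE) {u v w : V} {T : Finset V} (h : Cx G u v w T) {x x' : V}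
    (hx : x ∈ T) (hx' : x' ∈ T) (hne : x' ≠ x) (hT' : CoM G ((T.erase x).erase x'))
    (hQ : Q G (vec [(u, 1), (x, 1), (v, -1), (x', -1)]) ≤ -2 * (Fintype.card V : ℚ)) :
    Splits G := by
  have nx : ∀ {t : V}, t ∉ T → t ≠ x := fun ht h' => ht (h' ▸ hx)
  have nx' : ∀ {t : V}, t ∉ T → t ≠ x' := fun ht h' => ht (h' ▸ hx')
  have nT : ∀ {t : V}, t ∉ T → t ∉ (T.erase x).erase x' := fun ht h' => by
    simp at h'; exact ht h'.2.2
  refine fin4 hK hE hT' (a := u) (b := x) (c := v) (e := x') (y := w) (nx h.hu) h.huv (nx' h.hu)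
    (nx h.hv).symm hne.symm (nx' h.hv) h.hwu (nx h.hw) h.hwv (nx' h.hw)
    (nT h.hu) (by simp) (nT h.hv) (by simp) (nT h.hw) (fun t => ?_) hQ
  rcases h.hall t with h1 | h1 | h1 | h1
  · simp [h1]
  · simp [h1]
  · simp [h1]
  · rcases mem_two (x := x) (x' := x') h1 with h2 | h2 | h2
    · exact Or.inr (Or.inl h2)
    · exact Or.inr (Or.inr (Or.inr (Or.inl h2)))
    · exact Or.inr (Or.inr (Or.inr (Or.inr (Or.inr h2))))

lemma key3 (hK : StmK) (hE : StmE) {u v w : V} {T : Finset V} (h : Cx G u v w T) {x x' : V}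
    (hx : x ∈ T) (hx' : x' ∈ T) (hne : x' ≠ x) (hT' : CoM G ((T.erase x).erase x'))
    (hQ : Q G (vec [(u, 1), (v, 1), (x', 1), (w, -1), (x, -1)]) ≤ 0) :
    Splits G := by
  have nx : ∀ {t : V}, t ∉ T → t ≠ x := fun ht h' => ht (h' ▸ hx)
  have nx' : ∀ {t : V}, t ∉ T → t ≠ x' := fun ht h' => ht (h' ▸ hx')
  have nT : ∀ {t : V}, t ∉ T → t ∉ (T.erase x).erase x' := fun ht h' => by
    simp at h'; exact ht h'.2.2
  refine fin5 hK hE hT' (a := u) (b := v) (c := x') (e := w) (y := x) h.huv (nx' h.hu) h.hwu.symm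
    (nx' h.hv) h.hwv.symm (nx' h.hw).symm (nx h.hu).symm (nx h.hv).symm hne.symm (nx h.hw).symm
    (nT h.hu) (nT h.hv) (by simp) (nT h.hw) (by simp) (fun t => ?_) hQ
  rcases h.hall t with h1 | h1 | h1 | h1
  · simp [h1]
  · simp [h1]
  · simp [h1]
  · rcases mem_two (x := x) (x' := x') h1 with h2 | h2 | h2
    · exact Or.inr (Or.inr (Or.inr (Or.inr (Or.inl h2))))
    · exact Or.inr (Or.inr (Or.inl h2))
    · exact Or.inr (Or.inr (Or.inr (Or.inr (Or.inr h2))))

lemma nn : (0 : ℚ) ≤ (Fintype.card V : ℚ) := Nat.cast_nonneg _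

/-- case (a): `w` is adjacent to `v` -/
lemma caseA (hK : StmK) (hV : StmV) (hE : StmE) (hN : StmN) {u v w : V} {T : Finset V}
    (h : Cx G u v w T) {x : V} (hux : G.Adj u x) (hvw : G.Adj v w) : Splits G := by
  have hxT : x ∈ T := by
    rcases h.hall x with h1 | h1 | h1 | h1
    · exact absurd hux (h1 ▸ G.loopless.irrefl u)
    · exact absurd hux (h1 ▸ h.hn)
    · exact absurd ⟨h1 ▸ hux, hvw⟩ (h.hc w)
    · exact h1
  obtain ⟨x', hx', hne, -, hT'⟩ := (hN V G).1 T h.hT x hxT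
  refine key1 hK hE h hxT hx' hne hT' ?_
  have e2 : A G u v = 0 := A_not h.hn
  have e3 : A G u w = 0 := A_not fun h' => h.hc w ⟨h', hvw⟩
  have e4 : A G x v = 0 := A_not fun h' => h.hc x ⟨hux, h'.symm⟩
  have e5 := A_le_one (G := G) x w
  rw [Q4 hV, A_adj hux, A_adj hvw, e2, e3, e4]
  have := nn (V := V)
  nlinarith

/-- case (c), first part: some neighbour of `u` is not adjacent to `w`, where `w` is adjacent to
neither `u` nor `v` -/
lemma caseC1 (hK : StmK) (hV : StmV) (hE : StmE) (hN : StmN) {u v w : V} {T : Finset V}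
    (h : Cx G u v w T) (huw : ¬ G.Adj u w) (hvw : ¬ G.Adj v w) {x : V} (hux : G.Adj u x)
    (hwx : ¬ G.Adj w x) : Splits G := by
  have hxT : x ∈ T := by
    rcases h.hall x with h1 | h1 | h1 | h1
    · exact absurd hux (h1 ▸ G.loopless.irrefl u)
    · exact absurd hux (h1 ▸ h.hn)
    · exact absurd hux (h1 ▸ huw)
    · exact h1
  obtain ⟨x', hx', hne, -, hT'⟩ := (hN V G).1 T h.hT x hxT
  refine key1 hK hE h hxT hx' hne hT' ?_
  have e2 : A G u v = 0 := A_not h.hn
  have e3 : A G u w = 0 := A_not huw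
  have e4 : A G x v = 0 := A_not fun h' => h.hc x ⟨hux, h'.symm⟩
  have e5 : A G x w = 0 := A_not fun h' => hwx h'.symm
  have e6 : A G v w = 0 := A_not hvw
  rw [Q4 hV, A_adj hux, e2, e3, e4, e5, e6]
  have := nn (V := V)
  linarith

/-- case (c), last part, with `d x' ≤ d x` -/
lemma caseC3 (hK : StmK) (hV : StmV) (hE : StmE) {u v w : V} {T : Finset V}
    (h : Cx G u v w T) (huw : ¬ G.Adj u w) (hvw : ¬ G.Adj v w)
    (hNu : ∀ y, G.Adj u y → G.Adj w y) (hNv : ∀ y, G.Adj v y → G.Adj w y) {x x' : V}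
    (hx : x ∈ T) (hx' : x' ∈ T) (hne : x' ≠ x) (hT' : CoM G ((T.erase x).erase x'))
    (hux : G.Adj u x) (hux' : G.Adj u x') (hxx : ¬ G.Adj x' x) (hd : d G x' ≤ d G x) :
    Splits G := by
  refine key3 hK hE h hx hx' hne hT' ?_
  have e1 : A G u v = 0 := A_not h.hn
  have e2 : A G u w = 0 := A_not huw
  have e3 : A G v w = 0 := A_not hvw
  have e4 : A G v x = 0 := A_not fun h' => h.hc x ⟨hux, h'⟩
  have e5 : A G v x' = 0 := A_not fun h' => h.hc x' ⟨hux', h'⟩
  have e6 : A G x' w = 1 := A_adj (hNu x' hux').symm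
  have e7 : A G w x = 1 := A_adj (hNu x hux)
  have e8 : A G x' x = 0 := A_not hxx
  have hdw : d G u + d G v ≤ d G w := by
    unfold d
    rw [← Finset.sum_add_distrib]
    refine Finset.sum_le_sum fun y _ => ?_
    by_cases hy : G.Adj u y
    · rw [A_adj hy, A_not fun h' => h.hc y ⟨hy, h'⟩, A_adj (hNu y hy)]
      norm_num
    · by_cases hy' : G.Adj v y
      · rw [A_not hy, A_adj hy', A_adj (hNv y hy')]
        norm_num
      · rw [A_not hy, A_not hy']
        simpa using A_nonneg w y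
  rw [Q5 hV, e1, e2, e3, e4, e5, e6, e7, e8, A_adj hux, A_adj hux']
  have hc := c_nonneg (G := G)
  linarith

end C1

open C1 in
theorem sC1 (hK : StmK) (hV : StmV) (hE : StmE) (hN : StmN) : StmC1 := by
  intro V _ _ G u v w T huv hn hc hPu hPv hT hu hv hw hwu hwv hall
  have h : Cx G u v w T := ⟨huv, hn, hc, hT, hu, hv, hw, hwu, hwv, hall⟩
  obtain ⟨x, hux⟩ := hPu
  obtain ⟨x₂, hvx⟩ := hPv
  by_cases hvw : G.Adj v w
  · exact caseA hK hV hE hN h hux hvw
  by_cases huw : G.Adj u w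
  · exact caseA hK hV hE hN h.swap hvx huw
  by_cases hNu : ∀ y, G.Adj u y → G.Adj w y
  swap
  · push Not at hNu
    obtain ⟨y, h1, h2⟩ := hNu
    exact caseC1 hK hV hE hN h huw hvw h1 h2
  by_cases hNv : ∀ y, G.Adj v y → G.Adj w y
  swap
  · push Not at hNv
    obtain ⟨y, h1, h2⟩ := hNv
    exact caseC1 hK hV hE hN h.swap hvw huw h1 h2
  have hxT : x ∈ T := by
    rcases hall x with h1 | h1 | h1 | h1
    · exact absurd hux (h1 ▸ G.loopless.irrefl u)
    · exact absurd hux (h1 ▸ hn)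
    · exact absurd hux (h1 ▸ huw)
    · exact h1
  obtain ⟨x', hx', hne, hxx, hT'⟩ := (hN V G).1 T hT x hxT
  by_cases hux' : G.Adj u x'
  · rcases le_total (d G x') (d G x) with hd | hd
    · exact caseC3 hK hV hE h huw hvw hNu hNv hxT hx' hne hT' hux hux' (fun h' => hxx h'.symm) hd
    · have hT2 : CoM G ((T.erase x').erase x) := by rwa [Finset.erase_right_comm]
      exact caseC3 hK hV hE h huw hvw hNu hNv hx' hxT hne.symm hT2 hux' hux hxx hd
  · refine key2 hK hE h hxT hx' hne hT' ?_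
    have e1 : A G u v = 0 := A_not hn
    have e2 : A G u x' = 0 := A_not hux'
    have e3 : A G x v = 0 := A_not fun h' => hc x ⟨hux, h'.symm⟩
    have e4 : A G x x' = 0 := A_not hxx
    have e5 := A_nonneg (G := G) v x'
    rw [Q4 hV, A_adj hux, e1, e2, e3, e4]
    have := nn (V := V)
    nlinarith

end R100DC
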