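import Pool.Agent.R100.DC.Stm

/-! Project DC (MP_9c5a5c_co): two unmatched vertices. -/

namespace R100DC

open Finset

namespace C2

variable {V : Type} [Fintype V] [DecidableEq V] {G : SimpleGraph V}

theorem A_comm (a b : V) : A G a b = A G b a := by
  unfold A
  classical
  simp only [G.adj_comm a b]

theorem A_self (a : V) : A G a a = 0 := by
  unfold A
  classical
  simp

theorem A_one {a b : V} (h : G.Adj a b) : A G a b = 1 := by
  unfold A
  classical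
  simp [h]

theorem A_zero {a b : V} (h : ¬ G.Adj a b) : A G a b = 0 := by
  unfold A
  classical
  simp [h]

theorem A_nonneg (a b : V) : 0 ≤ A G a b := by
  by_cases h : G.Adj a b
  · rw [A_one h]; norm_num
  · rw [A_zero h]

theorem A_le_one (a b : V) : A G a b ≤ 1 := by
  by_cases h : G.Adj a b
  · rw [A_one h]
  · rw [A_zero h]; norm_num

theorem Q2 (hV : StmV) (a b : V) : Q G (vec [(a, 1), (b, -1)]) =
    2 * (Fintype.card V : ℚ) * A G a b := by
  rw [hV V G]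
  simp only [List.map_cons, List.map_nil, List.sum_cons, List.sum_nil]
  unfold M
  rw [A_self, A_self, A_comm b a]
  ring

theorem Q4 (hV : StmV) (a b c e : V) : Q G (vec [(a, 1), (b, 1), (c, -1), (e, -1)]) =
    -2 * (Fintype.card V : ℚ) * (A G a b + A G c e - A G a c - A G a e - A G b c - A G b e) := by
  rw [hV V G]
  simp only [List.map_cons, List.map_nil, List.sum_cons, List.sum_nil]
  unfold M
  rw [A_self, A_self, A_self, A_self, A_comm b a, A_comm c a, A_comm e a, A_comm c b, A_comm e b,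
    A_comm e c]
  ring

theorem vec4 {a b c e : V} (hab : a ≠ b) (hac : a ≠ c) (hae : a ≠ e) (hbc : b ≠ c) (hbe : b ≠ e)
    (hce : c ≠ e) :
    vec [(a, (1 : ℚ)), (b, 1), (c, -1), (e, -1)] a = 1 ∧
    vec [(a, (1 : ℚ)), (b, 1), (c, -1), (e, -1)] b = 1 ∧
    vec [(a, (1 : ℚ)), (b, 1), (c, -1), (e, -1)] c = -1 ∧
    vec [(a, (1 : ℚ)), (b, 1), (c, -1), (e, -1)] e = -1 ∧
    ∀ y, y ≠ a → y ≠ b → y ≠ c → y ≠ e →
      vec [(a, (1 : ℚ)), (b, 1), (c, -1), (e, -1)] y = 0 := by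
  unfold vec
  refine ⟨?_, ?_, ?_, ?_, ?_⟩
  · simp [hab, hac, hae]
  · simp [hab.symm, hbc, hbe]
  · simp [hac.symm, hbc.symm, hce]
  · simp [hae.symm, hbe.symm, hce.symm]
  · intro y h1 h2 h3 h4
    simp [h1, h2, h3, h4]

theorem fin0 (hK : StmK) (hE : StmE) {T : Finset V} (hT : CoM G T) {z : V → ℚ}
    (h0 : ∀ w ∈ T, z w = 0) (h1 : ∀ w, w ∉ T → z w = 1 ∨ z w = -1) (hp : ∃ w, z w = 1)
    (hm : ∃ w, z w = -1) (hQ : Q G z ≤ 0) : Splits G := by
  obtain ⟨z', hz1, hz2, hz3⟩ := (hE V G).2.2 T hT z h0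
  refine hK V G z' (fun w => ?_) ?_ ?_ (hz3.trans hQ)
  · by_cases hw : w ∈ T
    · exact hz2 w hw
    · rw [hz1 w hw]; exact h1 w hw
  · obtain ⟨w, hw⟩ := hp
    refine ⟨w, ?_⟩
    rw [hz1 w (fun h => ?_), hw]
    rw [h0 w h] at hw
    norm_num at hw
  · obtain ⟨w, hw⟩ := hm
    refine ⟨w, ?_⟩
    rw [hz1 w (fun h => ?_), hw]
    rw [h0 w h] at hw
    norm_num at hw

theorem fin2 (hK : StmK) (hE : StmE) {T : Finset V} (hT : CoM G T) {z : V → ℚ} {a b : V}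
    (hab : a ≠ b) (ha : a ∉ T) (hb : b ∉ T) (hza : z a = 0) (hzb : z b = 0)
    (h0 : ∀ w ∈ T, z w = 0) (h1 : ∀ w, w ∉ T → w ≠ a → w ≠ b → z w = 1 ∨ z w = -1)
    (hp : ∃ w, z w = 1) (hm : ∃ w, z w = -1) (hQ : Q G z ≤ -2 * (Fintype.card V : ℚ)) :
    Splits G := by
  obtain ⟨z', hz1, hz2, hz3, hz4⟩ := (hE V G).2.1 z a b hab hza hzb
  refine fin0 hK hE hT (z := z') (fun w hw => ?_) (fun w hw => ?_) ?_ ?_ ?_
  · rw [hz1 w (fun h => ha (h ▸ hw)) (fun h => hb (h ▸ hw))]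
    exact h0 w hw
  · by_cases hwa : w = a
    · rw [hwa]; exact hz2
    by_cases hwb : w = b
    · rw [hwb]; exact hz3
    rw [hz1 w hwa hwb]
    exact h1 w hw hwa hwb
  · obtain ⟨w, hw⟩ := hp
    refine ⟨w, ?_⟩
    rw [hz1 w (fun h => ?_) (fun h => ?_), hw]
    · rw [h, hza] at hw; norm_num at hw
    · rw [h, hzb] at hw; norm_num at hw
  · obtain ⟨w, hw⟩ := hm
    refine ⟨w, ?_⟩
    rw [hz1 w (fun h => ?_) (fun h => ?_), hw]
    · rw [h, hza] at hw; norm_num at hw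
    · rw [h, hzb] at hw; norm_num at hw
  · have h2 := A_le_one (G := G) a b
    have h3 : (0 : ℚ) ≤ (Fintype.card V : ℚ) := Nat.cast_nonneg _
    have h4 : (Fintype.card V : ℚ) * A G a b ≤ (Fintype.card V : ℚ) * 1 :=
      mul_le_mul_of_nonneg_left h2 h3
    linarith

/-- both unmatched vertices are adjacent to `v` -/
theorem caseC (hK : StmK) (hV : StmV) (hE : StmE) (hN : StmN) {u v w₁ w₂ : V} {T : Finset V}
    (huv : u ≠ v) (hnuv : ¬ G.Adj u v) (hd : ∀ y, ¬ (G.Adj u y ∧ G.Adj v y))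
    (hx : ∃ x, G.Adj u x) (hT : CoM G T) (huT : u ∉ T) (hvT : v ∉ T) (hw1T : w₁ ∉ T)
    (hw2T : w₂ ∉ T) (hw1u : w₁ ≠ u) (hw1v : w₁ ≠ v) (hw2u : w₂ ≠ u) (hw2v : w₂ ≠ v)
    (hw : w₁ ≠ w₂) (hall : ∀ y, y = u ∨ y = v ∨ y = w₁ ∨ y = w₂ ∨ y ∈ T)
    (h1 : G.Adj v w₁) (h2 : G.Adj v w₂) : Splits G := by
  obtain ⟨x, hx⟩ := hx
  have hxT : x ∈ T := by
    rcases hall x with rfl | rfl | rfl | rfl | h
    · exact absurd hx (G.loopless.irrefl _)
    · exact absurd hx hnuv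
    · exact absurd ⟨hx, h1⟩ (hd _)
    · exact absurd ⟨hx, h2⟩ (hd _)
    · exact h
  obtain ⟨x', hx'T, hx'x, hnxx', hT'⟩ := (hN V G).1 T hT x hxT
  have hux : u ≠ x := fun h => huT (h ▸ hxT)
  have hvx : v ≠ x := fun h => hvT (h ▸ hxT)
  have hw1x : w₁ ≠ x := fun h => hw1T (h ▸ hxT)
  have hw2x : w₂ ≠ x := fun h => hw2T (h ▸ hxT)
  have hux' : u ≠ x' := fun h => huT (h ▸ hx'T)
  have hvx' : v ≠ x' := fun h => hvT (h ▸ hx'T)
  have hw1x' : w₁ ≠ x' := fun h => hw1T (h ▸ hx'T)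
  have hw2x' : w₂ ≠ x' := fun h => hw2T (h ▸ hx'T)
  obtain ⟨e1, e2, e3, e4, e5⟩ := vec4 hux huv hw1u.symm hvx.symm hw1x.symm hw1v.symm
  refine fin2 hK hE hT' (z := vec [(u, (1 : ℚ)), (x, 1), (v, -1), (w₁, -1)]) (a := x') (b := w₂)
    hw2x'.symm ?_ ?_ ?_ ?_ ?_ ?_ ⟨u, e1⟩ ⟨v, e3⟩ ?_
  · exact Finset.notMem_erase _ _
  · intro h
    exact hw2T (Finset.mem_of_mem_erase (Finset.mem_of_mem_erase h))
  · exact e5 x' hux'.symm hx'x hvx'.symm hw1x'.symm
  · exact e5 w₂ hw2u hw2x hw2v hw.symm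
  · intro y hy
    have hy2 := Finset.mem_of_mem_erase hy
    have hyT := Finset.mem_of_mem_erase hy2
    exact e5 y (fun h => huT (h ▸ hyT)) (Finset.ne_of_mem_erase hy2) (fun h => hvT (h ▸ hyT))
      (fun h => hw1T (h ▸ hyT))
  · intro y hy hyx' hyw2
    rcases hall y with rfl | rfl | rfl | rfl | h
    · exact Or.inl e1
    · exact Or.inr e3
    · exact Or.inr e4
    · exact absurd rfl hyw2
    · by_cases hyx : y = x
      · rw [hyx]; exact Or.inl e2
      · exact absurd (Finset.mem_erase.2 ⟨hyx', Finset.mem_erase.2 ⟨hyx, h⟩⟩) hy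
  · rw [Q4 hV, A_one hx, A_one h1, A_zero hnuv, A_zero (fun h => hd _ ⟨h, h1⟩),
      A_zero (fun h => hd x ⟨hx, h.symm⟩)]
    have h3 := A_le_one (G := G) x w₁
    have h4 : (0 : ℚ) ≤ (Fintype.card V : ℚ) := Nat.cast_nonneg _
    have h5 : (Fintype.card V : ℚ) * A G x w₁ ≤ (Fintype.card V : ℚ) * 1 :=
      mul_le_mul_of_nonneg_left h3 h4
    linarith

/-- the classes of the two unmatched vertices differ -/
theorem caseB (hK : StmK) (hV : StmV) (hE : StmE) {u v w₁ w₂ : V} {T : Finset V}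
    (huv : u ≠ v) (hnuv : ¬ G.Adj u v) (hd : ∀ y, ¬ (G.Adj u y ∧ G.Adj v y))
    (hT : CoM G T) (huT : u ∉ T) (hvT : v ∉ T) (hw1T : w₁ ∉ T)
    (hw2T : w₂ ∉ T) (hw1u : w₁ ≠ u) (hw1v : w₁ ≠ v) (hw2u : w₂ ≠ u) (hw2v : w₂ ≠ v)
    (hw : G.Adj w₁ w₂) (hall : ∀ y, y = u ∨ y = v ∨ y = w₁ ∨ y = w₂ ∨ y ∈ T)
    (h1 : G.Adj u w₁) (h2 : ¬ G.Adj u w₂) : Splits G := by
  obtain ⟨e1, e2, e3, e4, e5⟩ := vec4 hw1u.symm huv hw2u.symm hw1v hw.ne hw2v.symm
  refine fin0 hK hE hT (z := vec [(u, (1 : ℚ)), (w₁, 1), (v, -1), (w₂, -1)]) ?_ ?_ ⟨u, e1⟩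
    ⟨v, e3⟩ ?_
  · intro y hyT
    exact e5 y (fun h => huT (h ▸ hyT)) (fun h => hw1T (h ▸ hyT)) (fun h => hvT (h ▸ hyT))
      (fun h => hw2T (h ▸ hyT))
  · intro y hy
    rcases hall y with rfl | rfl | rfl | rfl | h
    · exact Or.inl e1
    · exact Or.inr e3
    · exact Or.inl e2
    · exact Or.inr e4
    · exact absurd h hy
  · rw [Q4 hV, A_one h1, A_zero hnuv, A_zero h2, A_zero (fun h => hd _ ⟨h1, h.symm⟩), A_one hw]
    have h3 := A_nonneg (G := G) v w₂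
    have h4 : (0 : ℚ) ≤ (Fintype.card V : ℚ) := Nat.cast_nonneg _
    have h5 : 0 ≤ (Fintype.card V : ℚ) * A G v w₂ := mul_nonneg h4 h3
    linarith

end C2

open C2 in
theorem sC2 (hK : StmK) (hV : StmV) (hE : StmE) (hN : StmN) : StmC2 := by
  intro V _ _ G u v w₁ w₂ T huv hnuv hd hxu hxv hT huT hvT hw1T hw2T hw1u hw1v hw2u hw2v hw hall
  have hnvu : ¬ G.Adj v u := fun h => hnuv h.symm
  have hd' : ∀ y, ¬ (G.Adj v y ∧ G.Adj u y) := fun y h => hd y ⟨h.2, h.1⟩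
  have hall' : ∀ y, y = v ∨ y = u ∨ y = w₁ ∨ y = w₂ ∨ y ∈ T := by
    intro y
    rcases hall y with h | h | h | h | h
    · exact Or.inr (Or.inl h)
    · exact Or.inl h
    · exact Or.inr (Or.inr (Or.inl h))
    · exact Or.inr (Or.inr (Or.inr (Or.inl h)))
    · exact Or.inr (Or.inr (Or.inr (Or.inr h)))
  have hall2 : ∀ y, y = u ∨ y = v ∨ y = w₂ ∨ y = w₁ ∨ y ∈ T := by
    intro y
    rcases hall y with h | h | h | h | h
    · exact Or.inl h
    · exact Or.inr (Or.inl h)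
    · exact Or.inr (Or.inr (Or.inr (Or.inl h)))
    · exact Or.inr (Or.inr (Or.inl h))
    · exact Or.inr (Or.inr (Or.inr (Or.inr h)))
  have hall2' : ∀ y, y = v ∨ y = u ∨ y = w₂ ∨ y = w₁ ∨ y ∈ T := by
    intro y
    rcases hall y with h | h | h | h | h
    · exact Or.inr (Or.inl h)
    · exact Or.inl h
    · exact Or.inr (Or.inr (Or.inr (Or.inl h)))
    · exact Or.inr (Or.inr (Or.inl h))
    · exact Or.inr (Or.inr (Or.inr (Or.inr h)))
  by_cases a1 : G.Adj u w₁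
  · by_cases a2 : G.Adj u w₂
    · exact caseC hK hV hE hN huv.symm hnvu hd' hxv hT hvT huT hw1T hw2T hw1v hw1u hw2v hw2u hw.ne
        hall' a1 a2
    · exact caseB hK hV hE huv hnuv hd hT huT hvT hw1T hw2T hw1u hw1v hw2u hw2v hw hall a1 a2
  · by_cases a2 : G.Adj u w₂
    · exact caseB hK hV hE huv hnuv hd hT huT hvT hw2T hw1T hw2u hw2v hw1u hw1v hw.symm hall2 a2 a1
    · by_cases b1 : G.Adj v w₁
      · by_cases b2 : G.Adj v w₂
        · exact caseC hK hV hE hN huv hnuv hd hxu hT huT hvT hw1T hw2T hw1u hw1v hw2u hw2v hw.ne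
            hall b1 b2
        · exact caseB hK hV hE huv.symm hnvu hd' hT hvT huT hw1T hw2T hw1v hw1u hw2v hw2u hw
            hall' b1 b2
      · by_cases b2 : G.Adj v w₂
        · exact caseB hK hV hE huv.symm hnvu hd' hT hvT huT hw2T hw1T hw2v hw2u hw1v hw1u hw.symm
            hall2' b2 b1
        · -- neither is adjacent to `u` or `v`
          have hT' : CoM G (insert v (insert w₂ T)) := CoM.cons hvT hw2T hw2v.symm b2 hT
          have e1 : vec [(u, (1 : ℚ)), (w₁, -1)] u = 1 := by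
            unfold vec
            simp [hw1u.symm]
          have e2 : vec [(u, (1 : ℚ)), (w₁, -1)] w₁ = -1 := by
            unfold vec
            simp [hw1u]
          have e3 : ∀ y, y ≠ u → y ≠ w₁ → vec [(u, (1 : ℚ)), (w₁, -1)] y = 0 := by
            intro y h1 h2
            unfold vec
            simp [h1, h2]
          refine fin0 hK hE hT' (z := vec [(u, (1 : ℚ)), (w₁, -1)]) ?_ ?_ ⟨u, e1⟩ ⟨w₁, e2⟩ ?_
          · intro y hy
            rcases Finset.mem_insert.1 hy with rfl | hy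
            · exact e3 _ huv.symm hw1v.symm
            rcases Finset.mem_insert.1 hy with rfl | hy
            · exact e3 _ hw2u hw.ne.symm
            · exact e3 y (fun h => huT (h ▸ hy)) (fun h => hw1T (h ▸ hy))
          · intro y hy
            rcases hall y with rfl | rfl | rfl | rfl | h
            · exact Or.inl e1
            · exact absurd (Finset.mem_insert_self _ _) hy
            · exact Or.inr e2
            · exact absurd (Finset.mem_insert_of_mem (Finset.mem_insert_self _ _)) hy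
            · exact absurd (Finset.mem_insert_of_mem (Finset.mem_insert_of_mem h)) hy
          · rw [Q2 hV, A_zero a1, mul_zero]

end R100DC
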