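import Mathlib

/-! Project DC (MP_9c5a5c_co): definitions. -/

namespace R100DC

open Finset

variable {V : Type} [Fintype V] [DecidableEq V]

/-- adjacency indicator -/
noncomputable def A (G : SimpleGraph V) (a b : V) : ℚ := by
  classical exact if G.Adj a b then 1 else 0

/-- twice the number of edges inside `S` (ordered pairs) -/
noncomputable def E2 (G : SimpleGraph V) (S : Finset V) : ℚ := ∑ a ∈ S, ∑ b ∈ S, A G a b

/-- degree -/
noncomputable def d (G : SimpleGraph V) (a : V) : ℚ := ∑ b, A G a b

/-- the symmetric matrix -/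
noncomputable def M (G : SimpleGraph V) (a b : V) : ℚ :=
  d G a + d G b - E2 G univ / (Fintype.card V : ℚ) - (Fintype.card V : ℚ) * A G a b

/-- the quadratic form -/
noncomputable def Q (G : SimpleGraph V) (z : V → ℚ) : ℚ := ∑ a, ∑ b, M G a b * z a * z b

/-- a finitely supported vector given by a list -/
def vec (l : List (V × ℚ)) : V → ℚ := fun w => (l.map (fun p => if w = p.1 then p.2 else 0)).sum

/-- `T` is perfectly matched by non-adjacent pairs -/
inductive CoM (G : SimpleGraph V) : Finset V → Prop
  | nil : CoM G ∅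
  | cons {T : Finset V} {a b : V} (ha : a ∉ T) (hb : b ∉ T) (hab : a ≠ b) (h : ¬ G.Adj a b)
      (hT : CoM G T) : CoM G (insert a (insert b T))

/-- `V` can be split into two nonempty parts without decreasing the density -/
def Splits (G : SimpleGraph V) : Prop :=
  ∃ S : Finset V, S.Nonempty ∧ (Sᶜ).Nonempty ∧
    E2 G univ / (Fintype.card V : ℚ) ≤ E2 G S / (S.card : ℚ) + E2 G Sᶜ / ((Sᶜ).card : ℚ)

/-- number of edges inside `S` -/
noncomputable def edgesIn (G : SimpleGraph V) (S : Finset V) : ℕ :=
  (G.induce (S : Set V)).edgeSet.ncard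

/-- density of a partition -/
noncomputable def density (G : SimpleGraph V) (P : Finpartition (univ : Finset V)) : ℚ :=
  ∑ S ∈ P.parts, (edgesIn G S : ℚ) / (S.card : ℚ)

/-- every two distinct vertices of `S` are adjacent or have a common neighbour in `S` -/
def TwoClub (G : SimpleGraph V) (S : Finset V) : Prop :=
  ∀ u ∈ S, ∀ v ∈ S, u ≠ v → G.Adj u v ∨ ∃ w ∈ S, G.Adj u w ∧ G.Adj w v

end R100DC
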