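import Pool.Agent.R100.DC.Stm

/-! Project DC (MP_9c5a5c_co): piece E. -/

namespace R100DC

open Finset

namespace E

variable {V : Type} [Fintype V] [DecidableEq V]

lemma para (G : SimpleGraph V) (z y : V → ℚ) :
    Q G (fun x => z x + y x) + Q G (fun x => z x - y x) = 2 * Q G z + 2 * Q G y := by
  unfold Q
  rw [← Finset.sum_add_distrib, Finset.mul_sum, Finset.mul_sum, ← Finset.sum_add_distrib]
  refine Finset.sum_congr rfl (fun a _ => ?_)
  rw [← Finset.sum_add_distrib, Finset.mul_sum, Finset.mul_sum, ← Finset.sum_add_distrib]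
  refine Finset.sum_congr rfl (fun b _ => ?_)
  ring

lemma sgl (f : V → ℚ) (w : V) : ∑ x, f x * (if x = w then 1 else 0) = f w := by
  simp

lemma dbl (f : V → ℚ) (a b : V) :
    ∑ x, f x * ((if x = a then 1 else 0) - (if x = b then 1 else 0)) = f a - f b := by
  simp only [mul_sub, Finset.sum_sub_distrib, sgl]

lemma A_self (G : SimpleGraph V) (a : V) : A G a a = 0 := by
  simp [A]

lemma A_symm (G : SimpleGraph V) (a b : V) : A G a b = A G b a := by
  by_cases h : G.Adj a b
  · simp [A, h, h.symm]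
  · have h' : ¬ G.Adj b a := fun h2 => h h2.symm
    simp [A, h, h']

lemma Q_sgl (G : SimpleGraph V) (w : V) :
    Q G (fun x => if x = w then 1 else 0) = M G w w := by
  unfold Q
  have h1 : ∀ a, ∑ b, M G a b * (if a = w then 1 else 0) * (if b = w then 1 else 0)
      = M G a w * (if a = w then 1 else 0) := fun a =>
    sgl (fun b => M G a b * (if a = w then 1 else 0)) w
  simp only [h1]
  exact sgl (fun a => M G a w) w

lemma Q_dbl (G : SimpleGraph V) (a b : V) :
    Q G (fun x => (if x = a then 1 else 0) - (if x = b then 1 else 0))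
      = 2 * (Fintype.card V : ℚ) * A G a b := by
  unfold Q
  have h1 : ∀ x, ∑ y, M G x y * ((if x = a then 1 else 0) - (if x = b then 1 else 0)) *
        ((if y = a then 1 else 0) - (if y = b then 1 else 0))
      = (M G x a - M G x b) * ((if x = a then 1 else 0) - (if x = b then 1 else 0)) := by
    intro x
    have := dbl (fun y => M G x y * ((if x = a then 1 else 0) - (if x = b then 1 else 0))) a b
    refine this.trans ?_
    ring
  simp only [h1]
  rw [dbl (fun x => M G x a - M G x b) a b]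
  unfold M
  rw [A_self, A_self, A_symm G b a]
  ring

lemma part1 (G : SimpleGraph V) (z : V → ℚ) (w : V) (hz : z w = 0) :
    ∃ z' : V → ℚ, (∀ x, x ≠ w → z' x = z x) ∧ (z' w = 1 ∨ z' w = -1) ∧
      Q G z' ≤ Q G z + M G w w := by
  have h := para G z (fun x => if x = w then 1 else 0)
  rw [Q_sgl] at h
  by_cases h1 : Q G (fun x => z x + (if x = w then 1 else 0)) ≤ Q G z + M G w w
  · refine ⟨fun x => z x + (if x = w then 1 else 0), fun x hx => ?_, Or.inl ?_, h1⟩
    · simp [hx]
    · simp [hz]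
  · refine ⟨fun x => z x - (if x = w then 1 else 0), fun x hx => ?_, Or.inr ?_, ?_⟩
    · simp [hx]
    · simp [hz]
    · linarith [not_le.mp h1]

lemma part2 (G : SimpleGraph V) (z : V → ℚ) (a b : V) (hab : a ≠ b) (ha : z a = 0)
    (hb : z b = 0) : ∃ z' : V → ℚ, (∀ x, x ≠ a → x ≠ b → z' x = z x) ∧
      (z' a = 1 ∨ z' a = -1) ∧ (z' b = 1 ∨ z' b = -1) ∧
      Q G z' ≤ Q G z + 2 * (Fintype.card V : ℚ) * A G a b := by
  have h := para G z (fun x => (if x = a then 1 else 0) - (if x = b then 1 else 0))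
  rw [Q_dbl] at h
  by_cases h1 : Q G (fun x => z x + ((if x = a then 1 else 0) - (if x = b then 1 else 0))) ≤
      Q G z + 2 * (Fintype.card V : ℚ) * A G a b
  · refine ⟨fun x => z x + ((if x = a then 1 else 0) - (if x = b then 1 else 0)),
      fun x hx hx' => ?_, Or.inl ?_, Or.inr ?_, h1⟩
    · simp [hx, hx']
    · simp [ha, hab]
    · simp [hb, hab.symm]
  · refine ⟨fun x => z x - ((if x = a then 1 else 0) - (if x = b then 1 else 0)),
      fun x hx hx' => ?_, Or.inr ?_, Or.inl ?_, ?_⟩
    · simp [hx, hx']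
    · simp [ha, hab]
    · simp [hb, hab.symm]
    · linarith [not_le.mp h1]

lemma part3 (G : SimpleGraph V) (T : Finset V) (hT : CoM G T) :
    ∀ z : V → ℚ, (∀ w ∈ T, z w = 0) → ∃ z' : V → ℚ,
      (∀ w, w ∉ T → z' w = z w) ∧ (∀ w ∈ T, z' w = 1 ∨ z' w = -1) ∧ Q G z' ≤ Q G z := by
  induction hT with
  | nil => exact fun z _ => ⟨z, fun _ _ => rfl, fun w hw => absurd hw (Finset.notMem_empty w), le_rfl⟩
  | @cons T a b ha hb hab h hT ih =>
    intro z hz
    have hza : z a = 0 := hz a (by simp)
    have hzb : z b = 0 := hz b (by simp)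
    obtain ⟨z1, h1, h1a, h1b, h1Q⟩ := part2 G z a b hab hza hzb
    have hA : A G a b = 0 := by simp [A, h]
    rw [hA, mul_zero, add_zero] at h1Q
    have hz1 : ∀ w ∈ T, z1 w = 0 := by
      intro w hw
      have hwa : w ≠ a := fun h0 => ha (h0 ▸ hw)
      have hwb : w ≠ b := fun h0 => hb (h0 ▸ hw)
      rw [h1 w hwa hwb]
      exact hz w (by simp [hw])
    obtain ⟨z', h2, h3, h4⟩ := ih z1 hz1
    refine ⟨z', fun w hw => ?_, fun w hw => ?_, h4.trans h1Q⟩
    · simp only [Finset.mem_insert, not_or] at hw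
      rw [h2 w hw.2.2, h1 w hw.1 hw.2.1]
    · by_cases hwT : w ∈ T
      · exact h3 w hwT
      · rw [h2 w hwT]
        simp only [Finset.mem_insert] at hw
        rcases hw with rfl | rfl | hw
        · exact h1a
        · exact h1b
        · exact absurd hw hwT

end E

theorem sE : StmE := by
  intro V _ _ G
  exact ⟨E.part1 G, fun z a b hab ha hb => E.part2 G z a b hab ha hb,
    fun T hT z hz => E.part3 G T hT z hz⟩

end R100DC
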