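import Pool.Agent.R100.DC.Stm

/-! Project DC (MP_9c5a5c_co): piece F, splitting a part of an optimal partition. -/

namespace R100DC

open Finset

namespace F

theorem main {V : Type} [Fintype V] [DecidableEq V] (G : SimpleGraph V)
    (P : Finpartition (univ : Finset V)) {S B C : Finset V} (hS : S ∈ P.parts)
    (hB : B.Nonempty) (hC : C.Nonempty) (hBC : Disjoint B C) (hu : B ∪ C = S) :
    ∃ P' : Finpartition (univ : Finset V), P'.parts.card = P.parts.card + 1 ∧
      density G P' + (edgesIn G S : ℚ) / (S.card : ℚ) =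
        density G P + ((edgesIn G B : ℚ) / (B.card : ℚ) + (edgesIn G C : ℚ) / (C.card : ℚ)) := by
  obtain ⟨a0, ha0⟩ : ∃ a0 : Finset V, (P.parts.erase S).sup id = a0 := ⟨_, rfl⟩
  have hdis : Disjoint S a0 := by
    rw [← ha0]
    exact P.supIndep (Finset.erase_subset S P.parts) hS (Finset.notMem_erase S P.parts)
  have hsup : S ⊔ a0 = univ := by
    have h1 : (insert S (P.parts.erase S)).sup id = S ⊔ (P.parts.erase S).sup id := by
      rw [Finset.sup_insert]
      rfl
    rw [Finset.insert_erase hS, P.sup_parts] at h1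
    rw [← ha0]
    exact h1.symm
  have hBS : B ≤ S := by rw [← hu]; exact Finset.subset_union_left
  have hCS : C ≤ S := by rw [← hu]; exact Finset.subset_union_right
  have hdB : Disjoint a0 B := (hdis.mono_left hBS).symm
  have hdC : Disjoint a0 C := (hdis.mono_left hCS).symm
  have hB0 : B ≠ ⊥ := by
    rw [Finset.bot_eq_empty]
    exact hB.ne_empty
  have hC0 : C ≠ ⊥ := by
    rw [Finset.bot_eq_empty]
    exact hC.ne_empty
  have hd2 : Disjoint (a0 ⊔ B) C := Disjoint.sup_left hdC hBC
  have hall : (a0 ⊔ B) ⊔ C = univ := by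
    rw [sup_assoc]
    have : B ⊔ C = S := hu
    rw [this, sup_comm]
    exact hsup
  have hle : ∀ X ∈ P.parts.erase S, X ≤ a0 := by
    intro X hX
    rw [← ha0]
    exact Finset.le_sup (f := id) hX
  have hBn : B ∉ P.parts.erase S := by
    intro h
    exact hB0 (disjoint_self.mp (hdB.mono_left (hle B h)))
  have hCn : C ∉ P.parts.erase S := by
    intro h
    exact hC0 (disjoint_self.mp (hdC.mono_left (hle C h)))
  have hCB : C ≠ B := by
    rintro rfl
    exact hC0 (disjoint_self.mp hBC)
  have hCn2 : C ∉ insert B (P.parts.erase S) := by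
    rw [Finset.mem_insert, not_or]
    exact ⟨hCB, hCn⟩
  let P0 : Finpartition a0 := P.ofSubset (Finset.erase_subset S P.parts) ha0
  let P1 : Finpartition (a0 ⊔ B) := P0.extend hB0 hdB rfl
  let P2 : Finpartition (univ : Finset V) := P1.extend hC0 hd2 hall
  have hparts : P2.parts = insert C (insert B (P.parts.erase S)) := rfl
  refine ⟨P2, ?_, ?_⟩
  · rw [hparts, Finset.card_insert_of_notMem hCn2, Finset.card_insert_of_notMem hBn,
      Finset.card_erase_of_mem hS]
    have : 0 < P.parts.card := Finset.card_pos.mpr ⟨S, hS⟩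
    omega
  · unfold density
    rw [hparts, Finset.sum_insert hCn2, Finset.sum_insert hBn,
      ← Finset.add_sum_erase P.parts (fun S => (edgesIn G S : ℚ) / (S.card : ℚ)) hS]
    ring

end F

theorem sF (h1 : StmF1) : StmF := by
  intro V _ _ G hG P hmax hcard S hS
  by_contra hcon
  obtain ⟨B, C, hB, hC, hBC, hu, hle⟩ := h1 V G hG S hcon
  obtain ⟨P', hP', hd⟩ := F.main G P hS hB hC hBC hu
  have h2 := hmax P'
  have h3 : density G P' = density G P := by linarith
  have h4 := hcard P' h3
  omega

end R100DC
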