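import Pool.Agent.R100.DC.Stm

set_option autoImplicit false

namespace R100DC

open Finset

namespace F1

lemma edgesIn_eq {V : Type} [Fintype V] [DecidableEq V] (G : SimpleGraph V) (B : Finset V) :
    (edgesIn G B : ℚ) = E2 G B / 2 := by
  classical
  have h1 : edgesIn G B = (G.induce (B : Set V)).edgeFinset.card := by
    unfold edgesIn
    rw [Set.ncard_eq_toFinset_card']
    rfl
  have h2 := (G.induce (B : Set V)).sum_degrees_eq_twice_card_edges
  have h3 : (∑ x : ((B : Set V)), ((G.induce (B : Set V)).degree x : ℚ)) = E2 G B := by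
    unfold E2
    rw [Finset.sum_subtype B (p := fun x => x ∈ (B : Set V)) (fun x => by simp)
      (fun a => ∑ b ∈ B, A G a b)]
    refine Finset.sum_congr rfl fun x _ => ?_
    rw [Finset.sum_subtype B (p := fun x => x ∈ (B : Set V)) (fun x => by simp)
      (fun b => A G x b)]
    rw [← SimpleGraph.card_neighborFinset_eq_degree, SimpleGraph.neighborFinset_eq_filter,
      Finset.card_filter, Nat.cast_sum]
    refine Finset.sum_congr rfl fun y _ => ?_
    unfold A
    by_cases h : G.Adj x.1 y.1
    · simp [h]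
    · simp [h]
  have h4 : ((∑ x : ((B : Set V)), (G.induce (B : Set V)).degree x : ℕ) : ℚ) =
      ((2 * (G.induce (B : Set V)).edgeFinset.card : ℕ) : ℚ) := by
    rw [h2]
  rw [Nat.cast_sum, h3] at h4
  rw [h1, h4]
  push_cast
  ring

lemma E2_map {V : Type} [Fintype V] [DecidableEq V] (G : SimpleGraph V) (S : Finset V)
    (T : Finset {x // x ∈ S}) :
    E2 (G.comap (Function.Embedding.subtype fun x => x ∈ S)) T =
      E2 G (T.map (Function.Embedding.subtype fun x => x ∈ S)) := by
  classical
  unfold E2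
  rw [Finset.sum_map]
  refine Finset.sum_congr rfl fun a _ => ?_
  rw [Finset.sum_map]
  refine Finset.sum_congr rfl fun b _ => ?_
  unfold A
  by_cases h : G.Adj a.1 b.1
  · simp [h]
  · simp [h]

end F1

theorem sF1 (hC : StmC) : StmF1 := by
  intro V _ _ G hG S hS
  classical
  unfold TwoClub at hS
  push Not at hS
  obtain ⟨u, hu, v, hv, huv, hnadj, hno⟩ := hS
  have hcf : (G.comap (Function.Embedding.subtype fun x => x ∈ S)).CliqueFree 4 :=
    hG.comap ⟨(SimpleGraph.Embedding.comap (Function.Embedding.subtype fun x => x ∈ S) G).toCopy⟩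
  obtain ⟨T, hT1, hT2, hT⟩ := hC {x // x ∈ S} (G.comap (Function.Embedding.subtype fun x => x ∈ S))
    hcf ⟨u, hu⟩ ⟨v, hv⟩ (fun h => huv (by simpa using h)) (fun h => hnadj h)
    (fun w hw => hno w.1 w.2 hw.1 hw.2)
  refine ⟨T.map (Function.Embedding.subtype fun x => x ∈ S),
    Tᶜ.map (Function.Embedding.subtype fun x => x ∈ S), hT1.map, hT2.map, ?_, ?_, ?_⟩
  · rw [Finset.disjoint_map]
    exact disjoint_compl_right
  · rw [← Finset.map_union, Finset.union_compl]
    ext x
    simp
  · rw [F1.edgesIn_eq, F1.edgesIn_eq, F1.edgesIn_eq, Finset.card_map, Finset.card_map]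
    have h1 := F1.E2_map G S T
    have h2 := F1.E2_map G S Tᶜ
    have h3 := F1.E2_map G S univ
    have h4 : (univ : Finset {x // x ∈ S}).map (Function.Embedding.subtype fun x => x ∈ S) = S := by
      ext x
      simp
    rw [h4] at h3
    rw [h1, h2, h3, Fintype.card_coe] at hT
    have e : ∀ a b : ℚ, a / 2 / b = a / b / 2 := fun a b => by rw [div_right_comm]
    rw [e, e, e]
    linarith

end R100DC
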