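import Pool.Agent.R100.DC.Stm

/-! Project DC (MP_9c5a5c_co): existence of an optimal partition with the largest number of parts. -/

namespace R100DC

open Finset

/-- `P` maximises the density over all partitions. -/
def Optimal {V : Type} [Fintype V] [DecidableEq V] (G : SimpleGraph V)
    (P : Finpartition (univ : Finset V)) : Prop :=
  ∀ P' : Finpartition (univ : Finset V), density G P' ≤ density G P

theorem final (hF : StmF) (V : Type) [Fintype V] [DecidableEq V] (G : SimpleGraph V)
    (hG : G.CliqueFree 4) :
    (∃ P : Finpartition (univ : Finset V), Optimal G P ∧ ∀ S ∈ P.parts, TwoClub G S) ∧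
    ∀ P : Finpartition (univ : Finset V), Optimal G P →
      (∀ P' : Finpartition (univ : Finset V), Optimal G P' → P'.parts.card ≤ P.parts.card) →
      ∀ S ∈ P.parts, TwoClub G S := by
  classical
  have key : ∀ P : Finpartition (univ : Finset V), Optimal G P →
      (∀ P' : Finpartition (univ : Finset V), Optimal G P' → P'.parts.card ≤ P.parts.card) →
      ∀ S ∈ P.parts, TwoClub G S := by
    intro P hP hmax
    refine hF V G hG P hP ?_
    intro P' h
    apply hmax
    intro P''
    rw [h]
    exact hP P''
  refine ⟨?_, key⟩
  have hfin : Finite (Finpartition (univ : Finset V)) := by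
    refine Finite.of_injective (fun P => P.parts) ?_
    intro P P' h
    exact Finpartition.ext h
  have := Fintype.ofFinite (Finpartition (univ : Finset V))
  have : Nonempty (Finpartition (univ : Finset V)) := ⟨⊥⟩
  obtain ⟨P0, hP0⟩ := Finite.exists_max (fun P : Finpartition (univ : Finset V) => density G P)
  obtain ⟨P, hP, hPmax⟩ := Finset.exists_max_image
    (Finset.univ.filter (fun P : Finpartition (univ : Finset V) => Optimal G P))
    (fun P => P.parts.card) ⟨P0, Finset.mem_filter.mpr ⟨Finset.mem_univ _, hP0⟩⟩
  have hP' : Optimal G P := (Finset.mem_filter.mp hP).2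
  refine ⟨P, hP', key P hP' ?_⟩
  intro P' h
  exact hPmax P' (Finset.mem_filter.mpr ⟨Finset.mem_univ _, h⟩)

end R100DC
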