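import Pool.Agent.R100.DC.Stm

/-! Project DC (MP_9c5a5c_co): a sign vector with `Q z ≤ 0` gives a good split. -/

namespace R100DC

open Finset

namespace K

variable {V : Type} [Fintype V] [DecidableEq V]

/-- number of ordered adjacent pairs -/
noncomputable def AX (G : SimpleGraph V) (X Y : Finset V) : ℚ := ∑ a ∈ X, ∑ b ∈ Y, A G a b

/-- sum of degrees -/
noncomputable def DX (G : SimpleGraph V) (X : Finset V) : ℚ := ∑ a ∈ X, d G a

lemma A_symm (G : SimpleGraph V) (a b : V) : A G a b = A G b a := by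
  classical
  unfold A
  by_cases h : G.Adj a b
  · rw [if_pos h, if_pos h.symm]
  · rw [if_neg h, if_neg fun h' => h h'.symm]

lemma AX_symm (G : SimpleGraph V) (X Y : Finset V) : AX G X Y = AX G Y X := by
  unfold AX
  rw [Finset.sum_comm]
  exact Finset.sum_congr rfl fun a _ => Finset.sum_congr rfl fun b _ => A_symm G _ _

lemma M_sum (G : SimpleGraph V) (X Y : Finset V) : ∑ a ∈ X, ∑ b ∈ Y, M G a b =
    (Y.card : ℚ) * DX G X + X.card * DX G Y -
      E2 G univ / (Fintype.card V : ℚ) * X.card * Y.card -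
      (Fintype.card V : ℚ) * AX G X Y := by
  unfold M DX AX
  simp only [Finset.sum_sub_distrib, Finset.sum_add_distrib, Finset.sum_const, nsmul_eq_mul,
    ← Finset.mul_sum]
  ring

lemma sum_z {z : V → ℚ} {S : Finset V} (h1 : ∀ a ∈ S, z a = 1) (h2 : ∀ a ∈ Sᶜ, z a = -1)
    (f : V → ℚ) : ∑ a, f a * z a = ∑ a ∈ S, f a - ∑ a ∈ Sᶜ, f a := by
  rw [← Finset.sum_add_sum_compl S, sub_eq_add_neg, ← Finset.sum_neg_distrib]
  congr 1
  · exact Finset.sum_congr rfl fun a ha => by rw [h1 a ha, mul_one]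
  · exact Finset.sum_congr rfl fun a ha => by rw [h2 a ha, mul_neg, mul_one]

lemma Q_eq (G : SimpleGraph V) {z : V → ℚ} {S : Finset V} (h1 : ∀ a ∈ S, z a = 1)
    (h2 : ∀ a ∈ Sᶜ, z a = -1) :
    Q G z = (∑ a ∈ S, ∑ b ∈ S, M G a b - ∑ a ∈ S, ∑ b ∈ Sᶜ, M G a b) -
      (∑ a ∈ Sᶜ, ∑ b ∈ S, M G a b - ∑ a ∈ Sᶜ, ∑ b ∈ Sᶜ, M G a b) := by
  have h : Q G z = ∑ a, (∑ b, M G a b * z b) * z a := by
    unfold Q
    refine Finset.sum_congr rfl fun a _ => ?_
    rw [Finset.sum_mul]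
    exact Finset.sum_congr rfl fun b _ => by ring
  rw [h, sum_z h1 h2]
  simp only [sum_z h1 h2 _, Finset.sum_sub_distrib]

lemma DX_eq (G : SimpleGraph V) (X S : Finset V) : DX G X = AX G X S + AX G X Sᶜ := by
  unfold DX AX d
  rw [← Finset.sum_add_distrib]
  exact Finset.sum_congr rfl fun a _ => (Finset.sum_add_sum_compl S _).symm

lemma E2_eq (G : SimpleGraph V) (S : Finset V) :
    E2 G univ = AX G S S + 2 * AX G S Sᶜ + AX G Sᶜ Sᶜ := by
  have h : E2 G univ = DX G S + DX G Sᶜ := by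
    unfold E2 DX d
    exact (Finset.sum_add_sum_compl S _).symm
  rw [h, DX_eq G S S, DX_eq G Sᶜ S, AX_symm G Sᶜ S]
  ring

end K

open K in
theorem sK : StmK := by
  classical
  intro V _ _ G z hz hp hm hQ
  obtain ⟨S, hS⟩ : ∃ S : Finset V, S = univ.filter (fun w => z w = 1) := ⟨_, rfl⟩
  have h1 : ∀ a ∈ S, z a = 1 := by
    intro a ha
    rw [hS, Finset.mem_filter] at ha
    exact ha.2
  have h2 : ∀ a ∈ Sᶜ, z a = -1 := by
    intro a ha
    rw [Finset.mem_compl, hS, Finset.mem_filter] at ha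
    rcases hz a with h | h
    · exact absurd ⟨Finset.mem_univ a, h⟩ ha
    · exact h
  have hSn : S.Nonempty := by
    obtain ⟨w, hw⟩ := hp
    exact ⟨w, by rw [hS, Finset.mem_filter]; exact ⟨Finset.mem_univ w, hw⟩⟩
  have hSc : (Sᶜ).Nonempty := by
    obtain ⟨w, hw⟩ := hm
    refine ⟨w, ?_⟩
    rw [Finset.mem_compl]
    intro h
    have := h1 w h
    rw [hw] at this
    norm_num at this
  refine ⟨S, hSn, hSc, ?_⟩
  have hs : (0 : ℚ) < S.card := by exact_mod_cast hSn.card_pos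
  have ht : (0 : ℚ) < (Sᶜ).card := by exact_mod_cast hSc.card_pos
  have hn : (Fintype.card V : ℚ) = S.card + (Sᶜ).card := by
    exact_mod_cast (Finset.card_add_card_compl S).symm
  have hE : E2 G univ = AX G S S + 2 * AX G S Sᶜ + AX G Sᶜ Sᶜ := E2_eq G S
  have hQ2 := hQ
  rw [Q_eq G h1 h2, M_sum, M_sum, M_sum, M_sum, DX_eq G S S, DX_eq G Sᶜ S, AX_symm G Sᶜ S] at hQ2
  have hES : E2 G S = AX G S S := rfl
  have hEC : E2 G Sᶜ = AX G Sᶜ Sᶜ := rfl
  rw [hES, hEC]
  obtain ⟨c, hc⟩ : ∃ c : ℚ, c = E2 G univ / (Fintype.card V : ℚ) := ⟨_, rfl⟩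
  rw [← hc] at hQ2 ⊢
  have hcn : c * (S.card + (Sᶜ).card) = AX G S S + 2 * AX G S Sᶜ + AX G Sᶜ Sᶜ := by
    rw [← hE, hc, hn]
    field_simp
  rw [hn] at hQ2
  generalize ((Sᶜ).card : ℚ) = t at *
  generalize (S.card : ℚ) = s at *
  generalize AX G S S = α at *
  generalize AX G S Sᶜ = γ at *
  generalize AX G Sᶜ Sᶜ = β at *
  have hγ : 2 * γ = c * (s + t) - α - β := by linarith
  have key : 4 * (s * t * c) ≤ 4 * (α * t + β * s) := by
    have e : (s * (α + γ) + s * (α + γ) - c * s * s - (s + t) * α -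
        (t * (α + γ) + s * (γ + β) - c * s * t - (s + t) * γ) -
        (s * (γ + β) + t * (α + γ) - c * t * s - (s + t) * γ -
          (t * (γ + β) + t * (γ + β) - c * t * t - (s + t) * β))) =
        4 * (s * t * c) - 4 * (α * t + β * s) +
          (s + t) * (2 * γ - (c * (s + t) - α - β)) := by ring
    have e2 : 2 * γ - (c * (s + t) - α - β) = 0 := by linarith
    rw [e2, mul_zero, add_zero] at e
    linarith [e, hQ2]
  have hst : α / s + β / t = (α * t + β * s) / (s * t) := by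
    field_simp
  rw [hst, le_div_iff₀ (by positivity)]
  linarith

end R100DC
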