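import Pool.Agent.R100.DC.Stm

/-! Project DC, piece N: facts on matched sets. -/

namespace R100DC

open Finset

namespace N

variable {V : Type} [Fintype V] [DecidableEq V]

theorem partner (G : SimpleGraph V) (T : Finset V) (hT : CoM G T) :
    ∀ x ∈ T, ∃ x' ∈ T, x' ≠ x ∧ ¬ G.Adj x x' ∧ CoM G ((T.erase x).erase x') := by
  induction hT with
  | nil => intro x hx; simp at hx
  | @cons T a b ha hb hab h hT ih =>
    intro x hx
    have e1 : ((insert a (insert b T)).erase a).erase b = T := by
      rw [Finset.erase_insert, Finset.erase_insert hb]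
      simp only [Finset.mem_insert, not_or]
      exact ⟨hab, ha⟩
    rcases Finset.mem_insert.1 hx with rfl | hx
    · refine ⟨b, by simp, hab.symm, h, ?_⟩
      rw [e1]; exact hT
    rcases Finset.mem_insert.1 hx with rfl | hx
    · refine ⟨a, by simp, hab, fun h' => h h'.symm, ?_⟩
      rw [Finset.erase_right_comm, e1]; exact hT
    · obtain ⟨x', hx', hne, hadj, hco⟩ := ih x hx
      refine ⟨x', by simp [hx'], hne, hadj, ?_⟩
      have hax : a ≠ x := fun e => ha (e ▸ hx)
      have hbx : b ≠ x := fun e => hb (e ▸ hx)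
      have hax' : a ≠ x' := fun e => ha (e ▸ hx')
      have hbx' : b ≠ x' := fun e => hb (e ▸ hx')
      have e2 : ((insert a (insert b T)).erase x).erase x' =
          insert a (insert b ((T.erase x).erase x')) := by
        rw [Finset.erase_insert_of_ne hax, Finset.erase_insert_of_ne hbx,
          Finset.erase_insert_of_ne hax', Finset.erase_insert_of_ne hbx']
      rw [e2]
      refine CoM.cons ?_ ?_ hab h hco
      · simp [ha]
      · simp [hb]

theorem maxl (G : SimpleGraph V) (V' : Finset V) : ∃ T ⊆ V', CoM G T ∧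
      ∀ a ∈ V' \ T, ∀ b ∈ V' \ T, a ≠ b → G.Adj a b := by
  classical
  obtain ⟨T, hT, hmax⟩ := Finset.exists_max_image (V'.powerset.filter (fun T => CoM G T))
    Finset.card ⟨∅, by simp [CoM.nil]⟩
  rw [Finset.mem_filter, Finset.mem_powerset] at hT
  refine ⟨T, hT.1, hT.2, ?_⟩
  intro a ha b hb hab
  by_contra hadj
  rw [Finset.mem_sdiff] at ha hb
  have hco : CoM G (insert a (insert b T)) := CoM.cons ha.2 hb.2 hab hadj hT.2
  have hsub : insert a (insert b T) ⊆ V' := by
    intro y hy
    rcases Finset.mem_insert.1 hy with rfl | hy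
    · exact ha.1
    rcases Finset.mem_insert.1 hy with rfl | hy
    · exact hb.1
    exact hT.1 hy
  have h1 := hmax (insert a (insert b T))
    (by rw [Finset.mem_filter, Finset.mem_powerset]; exact ⟨hsub, hco⟩)
  rw [Finset.card_insert_of_notMem, Finset.card_insert_of_notMem hb.2] at h1
  · omega
  · simp only [Finset.mem_insert, not_or]
    exact ⟨hab, ha.2⟩

end N

theorem sN : StmN := by
  intro V _ _ G
  exact ⟨fun T hT => N.partner G T hT, fun V' => N.maxl G V'⟩

end R100DC
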