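import Pool.Agent.R100.DC.Defs

/-! Project DC (MP_9c5a5c_co): statements of the pieces. -/

namespace R100DC

open Finset

/-- K: `Q z ≤ 0` for a nonconstant sign vector gives a good split -/
def StmK : Prop := ∀ (V : Type) [Fintype V] [DecidableEq V] (G : SimpleGraph V) (z : V → ℚ),
  (∀ w, z w = 1 ∨ z w = -1) → (∃ w, z w = 1) → (∃ w, z w = -1) → Q G z ≤ 0 → Splits G

/-- V: the value of `Q` on a list vector -/
def StmV : Prop := ∀ (V : Type) [Fintype V] [DecidableEq V] (G : SimpleGraph V) (l : List (V × ℚ)),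
  Q G (vec l) = (l.map (fun p => (l.map (fun p' => M G p.1 p'.1 * p.2 * p'.2)).sum)).sum

/-- E: adding single vertices, pairs, and matched sets -/
def StmE : Prop := ∀ (V : Type) [Fintype V] [DecidableEq V] (G : SimpleGraph V),
  (∀ (z : V → ℚ) (w : V), z w = 0 → ∃ z' : V → ℚ, (∀ x, x ≠ w → z' x = z x) ∧
      (z' w = 1 ∨ z' w = -1) ∧ Q G z' ≤ Q G z + M G w w) ∧
  (∀ (z : V → ℚ) (a b : V), a ≠ b → z a = 0 → z b = 0 → ∃ z' : V → ℚ,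
      (∀ x, x ≠ a → x ≠ b → z' x = z x) ∧ (z' a = 1 ∨ z' a = -1) ∧ (z' b = 1 ∨ z' b = -1) ∧
      Q G z' ≤ Q G z + 2 * (Fintype.card V : ℚ) * A G a b) ∧
  (∀ T : Finset V, CoM G T → ∀ z : V → ℚ, (∀ w ∈ T, z w = 0) → ∃ z' : V → ℚ,
      (∀ w, w ∉ T → z' w = z w) ∧ (∀ w ∈ T, z' w = 1 ∨ z' w = -1) ∧ Q G z' ≤ Q G z)

/-- N: facts on matched sets -/
def StmN : Prop := ∀ (V : Type) [Fintype V] [DecidableEq V] (G : SimpleGraph V),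
  (∀ T : Finset V, CoM G T → ∀ x ∈ T, ∃ x' ∈ T, x' ≠ x ∧ ¬ G.Adj x x' ∧
      CoM G ((T.erase x).erase x')) ∧
  (∀ V' : Finset V, ∃ T ⊆ V', CoM G T ∧
      ∀ a ∈ V' \ T, ∀ b ∈ V' \ T, a ≠ b → G.Adj a b)

/-- C: the core -/
def StmC : Prop := ∀ (V : Type) [Fintype V] [DecidableEq V] (G : SimpleGraph V),
  G.CliqueFree 4 → ∀ u v : V, u ≠ v → ¬ G.Adj u v → (∀ w, ¬ (G.Adj u w ∧ G.Adj w v)) → Splits G

/-- F: the final statement -/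
def StmF : Prop := ∀ (V : Type) [Fintype V] [DecidableEq V] (G : SimpleGraph V),
  G.CliqueFree 4 → ∀ P : Finpartition (univ : Finset V),
    (∀ P' : Finpartition (univ : Finset V), density G P' ≤ density G P) →
    (∀ P' : Finpartition (univ : Finset V), density G P' = density G P →
      P'.parts.card ≤ P.parts.card) →
    ∀ S ∈ P.parts, TwoClub G S

/-- C1: one unmatched vertex -/
def StmC1 : Prop := ∀ (V : Type) [Fintype V] [DecidableEq V] (G : SimpleGraph V) (u v w : V)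
  (T : Finset V), u ≠ v → ¬ G.Adj u v → (∀ y, ¬ (G.Adj u y ∧ G.Adj v y)) →
  (∃ x, G.Adj u x) → (∃ x, G.Adj v x) → CoM G T → u ∉ T → v ∉ T → w ∉ T → w ≠ u → w ≠ v →
  (∀ y, y = u ∨ y = v ∨ y = w ∨ y ∈ T) → Splits G

/-- C2: two unmatched vertices -/
def StmC2 : Prop := ∀ (V : Type) [Fintype V] [DecidableEq V] (G : SimpleGraph V) (u v w₁ w₂ : V)
  (T : Finset V), u ≠ v → ¬ G.Adj u v → (∀ y, ¬ (G.Adj u y ∧ G.Adj v y)) →
  (∃ x, G.Adj u x) → (∃ x, G.Adj v x) → CoM G T → u ∉ T → v ∉ T → w₁ ∉ T → w₂ ∉ T →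
  w₁ ≠ u → w₁ ≠ v → w₂ ≠ u → w₂ ≠ v → G.Adj w₁ w₂ →
  (∀ y, y = u ∨ y = v ∨ y = w₁ ∨ y = w₂ ∨ y ∈ T) → Splits G

/-- C3: three unmatched vertices -/
def StmC3 : Prop := ∀ (V : Type) [Fintype V] [DecidableEq V] (G : SimpleGraph V) (u v w₁ w₂ w₃ : V)
  (T : Finset V), G.CliqueFree 4 → u ≠ v → ¬ G.Adj u v → (∀ y, ¬ (G.Adj u y ∧ G.Adj v y)) →
  (∃ x, G.Adj u x) → (∃ x, G.Adj v x) → CoM G T → u ∉ T → v ∉ T → w₁ ∉ T → w₂ ∉ T → w₃ ∉ T →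
  w₁ ≠ u → w₁ ≠ v → w₂ ≠ u → w₂ ≠ v → w₃ ≠ u → w₃ ≠ v → G.Adj w₁ w₂ → G.Adj w₁ w₃ →
  G.Adj w₂ w₃ → (∀ y, y = u ∨ y = v ∨ y = w₁ ∨ y = w₂ ∨ y = w₃ ∨ y ∈ T) → Splits G

/-- F1: transfer of the core to a part -/
def StmF1 : Prop := ∀ (V : Type) [Fintype V] [DecidableEq V] (G : SimpleGraph V),
  G.CliqueFree 4 → ∀ S : Finset V, ¬ TwoClub G S →
    ∃ B C : Finset V, B.Nonempty ∧ C.Nonempty ∧ Disjoint B C ∧ B ∪ C = S ∧
      (edgesIn G S : ℚ) / (S.card : ℚ) ≤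
        (edgesIn G B : ℚ) / (B.card : ℚ) + (edgesIn G C : ℚ) / (C.card : ℚ)

end R100DC
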