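import Pool.Agent.R100.DC.Stm

/-! Project DC, piece V (helper925): the value of `Q` on a list vector. -/

set_option autoImplicit false

namespace R100DC

open Finset

namespace V

variable {W : Type} [Fintype W] [DecidableEq W]

theorem lin (l : List (W × ℚ)) (g : W → ℚ) :
    ∑ b, g b * vec l b = (l.map (fun p => g p.1 * p.2)).sum := by
  induction l with
  | nil => simp [vec]
  | cons p l ih =>
    have h : ∀ b, vec (p :: l) b = (if b = p.1 then p.2 else 0) + vec l b := fun b => by
      simp [vec]
    simp only [h, mul_add, Finset.sum_add_distrib, ih, List.map_cons, List.sum_cons]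
    simp

end V

theorem sV : StmV := by
  intro V₁ _ _ G l
  unfold Q
  have h1 : ∀ a, ∑ b, M G a b * vec l a * vec l b =
      (l.map (fun p' => M G a p'.1 * p'.2)).sum * vec l a := by
    intro a
    rw [← V.lin l (fun b => M G a b), Finset.sum_mul]
    exact Finset.sum_congr rfl (fun b _ => by ring)
  rw [Finset.sum_congr rfl (fun a _ => h1 a), V.lin l]
  congr 1
  apply List.map_congr_left
  intro p _
  rw [← List.sum_map_mul_right]
  congr 1
  apply List.map_congr_left
  intro p' _
  ring

end R100DC
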